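import Pool.Agent.H94.EGC.S1

/-!
# EGC: the Hilbert function as a sum (HFS)
-/

set_option autoImplicit false

namespace Pool.EGC

open MvPolynomial Pool.EGH

section HFS

variable {K : Type} [Field K] {N : ℕ}

/-- The ideals `(I : l) : l ^ j`. -/
theorem cj_clI (I : Ideal (PR K N)) (l : PR K N) (j : ℕ) :
    cj (clI I l) l j = cj I l (j + 1) := by
  induction j with
  | zero => rfl
  | succ j ih =>
    change clI (cj (clI I l) l j) l = clI (cj I l (j + 1)) l
    rw [ih]

theorem cj_hg (h2 : HGAStmt) (I : Ideal (PR K N)) (l : PR K N) (hI : Hg I)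
    (hl : l ∈ fm K N 1) (j : ℕ) : Hg (cj I l j) := by
  induction j with
  | zero => exact hI
  | succ j ih => exact ((h2 K N).2.1 (cj I l j) 1 l ih hl).2

theorem le_clI (I : Ideal (PR K N)) (l : PR K N) : I ≤ clI I l := fun f hf => by
  change l * f ∈ I
  exact I.mul_mem_left l hf

theorem cj_le (I : Ideal (PR K N)) (l : PR K N) (j : ℕ) : cj I l j ≤ cj I l (j + 1) :=
  le_clI (cj I l j) l

theorem le_cj (I : Ideal (PR K N)) (l : PR K N) (j : ℕ) : I ≤ cj I l j := by
  induction j with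
  | zero => exact le_refl I
  | succ j ih => exact ih.trans (cj_le I l j)

theorem hf_sum (h1 : COLStmt) (h2 : HGAStmt) (l : PR K N) (hl : l ∈ fm K N 1) (d : ℕ) :
    ∀ I : Ideal (PR K N), Hg I →
      hf I d = ∑ j ∈ Finset.range (d + 1), hf (cj I l j ⊔ Ideal.span {l}) (d - j) := by
  induction d with
  | zero =>
    intro I hI
    rw [Finset.sum_range_one]
    exact ((h1 K N 1 I l hI hl).2 0 Nat.one_pos).symm
  | succ d ih =>
    intro I hI
    have hc : Hg (clI I l) := ((h2 K N).2.1 I 1 l hI hl).2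
    rw [← (h1 K N 1 I l hI hl).1 d, ih (clI I l) hc,
      Finset.sum_range_succ' (fun j => hf (cj I l j ⊔ Ideal.span {l}) (d + 1 - j)) (d + 1),
      add_comm]
    refine congrArg₂ (· + ·) (Finset.sum_congr rfl fun j _ => ?_) rfl
    rw [cj_clI, Nat.add_sub_add_right]

end HFS

/-- HFS. -/
theorem t_hfs (h1 : COLStmt) (h2 : HGAStmt) : HFSStmt := by
  intro K _ N I l hI hl
  refine ⟨fun j => ⟨((h2 K N).2.1 (cj I l j) 1 l (cj_hg h2 I l hI hl j) hl).1, le_cj I l j,
    sup_le_sup_right (cj_le I l j) _⟩, fun d => hf_sum h1 h2 l hl d I hI⟩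

end Pool.EGC
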