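import Pool.Agent.H94.EGC.S1

/-!
# EGC: RZC, from a family of sets to a lexicographic family
-/

set_option autoImplicit false

namespace Pool.EGC

open MvPolynomial Pool.EGH

theorem t_rzc (h1 : CLTStmt) (h2 : SGEStmt) (h3 : SUPStmt) : RZCStmt := by
  intro K _ N m I c hc ⟨A, hA1, hA2, hA3⟩
  choose B hB using fun d => (h2 m c d).1 (A d).card (Finset.card_le_card (hA1 d))
  refine ⟨B, fun d => (hB d).1, fun d => ?_, fun d => by rw [(hB d).2]; exact hA3 d⟩
  refine (h2 m c (d + 1)).2 _ _ (h3 m c d _ (hB d).1) (hB (d + 1)).1 ?_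
  rw [(hB (d + 1)).2]
  exact (h1 m c hc d (A d) (B d) (hA1 d) (hB d).1 (hB d).2).trans
    (Finset.card_le_card (hA2 d))

end Pool.EGC
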